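import Pool.Agent.Work.MP_db9399_hr_helper1.Hred

/-!
# MP_db9399: Q1 for all graphs of large degree from the theorem for regular graphs (helper1)
-/

set_option autoImplicit false

namespace Pool.Agent.Work.MP_db9399_hr.helper1

open Finset Classical
open Pool.Agent.Work.MP_db9399_all (nb)
open Pool.Agent.Work.MP_db9399_xf
open _root_.MP_db9399_co (IsTotalColoring IsDistThreeMatching EveryTotalColoringExtends)

universe u

/-- one graph -/
theorem ext_of_reg {V : Type u} [Fintype V] (G : SimpleGraph V) [DecidableRel G.Adj] (k : ℕ)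
    (hk3 : 3 ≤ k) (hk : G.maxDegree + 2 ≤ k) (H : G.Subgraph) (hH : IsDistThreeMatching H)
    (c₀ : V → Fin k) (t₀ : Sym2 V → Fin k) (h0 : IsTotalColoring H.spanningCoe c₀ t₀)
    (hreg : ∀ {V' : Type u} [Fintype V'] (G' : SimpleGraph V') (Y : HX V'), HXP G' (k - 2) Y →
      (∀ b ∈ Y.W.image Y.c0 ∪ Y.W.image Y.t0,
        (∃ v ∈ H.verts, (c₀ v : ℕ) = b) ∨ ∃ e ∈ H.edgeSet, (t₀ e : ℕ) = b) →
      ∃ (c : V' → ℕ) (t : V' → V' → ℕ), TotHX (k - 2) G' Y c t) :
    ∃ (c : V → Fin k) (t : Sym2 V → Fin k), IsTotalColoring G c t ∧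
      (∀ v ∈ H.verts, c v = c₀ v) ∧ ∀ e ∈ H.edgeSet, t e = t₀ e := by
  have hd : k - 2 + 2 = k := by omega
  have hnb : ∀ v, (nb G v).card ≤ k - 2 := by
    intro v
    have h1 : (nb G v).card = G.degree v := by
      rw [← SimpleGraph.card_neighborFinset_eq_degree]
      congr 1
      ext w
      simp [nb]
    have h2 := G.degree_le_maxDegree v
    omega
  obtain ⟨V', _, G', Y, hY, hYc, hfin⟩ := stmt_HRED G (k - 2) H (fun v => (c₀ v : ℕ))
    (fun e => (t₀ e : ℕ)) (by omega) hnb hH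
    ⟨fun u v huv he => h0.vertex u v huv (Fin.ext he),
      fun u v w huv huw hvw he => h0.edge u v w huv huw hvw (Fin.ext he),
      fun u v huv he => h0.incidence u v huv (Fin.ext he)⟩
    (fun v _ => by rw [hd]; exact (c₀ v).2) (fun e _ => by rw [hd]; exact (t₀ e).2)
  obtain ⟨c, t, hct⟩ := hreg G' Y hY hYc
  obtain ⟨c₁, t₁, h1, h2, h3, h4, h5⟩ := hfin c t hct
  rw [hd] at h2 h3
  have hk0 : 0 < k := by omega
  let t' : Sym2 V → Fin k := fun e => if h : t₁ e < k then ⟨t₁ e, h⟩ else ⟨0, hk0⟩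
  have ht' : ∀ e ∈ G.edgeSet, (t' e : ℕ) = t₁ e := fun e he => by
    simp only [t']
    rw [dif_pos (h3 e he)]
  refine ⟨fun v => ⟨c₁ v, h2 v⟩, t', ⟨?_, ?_, ?_⟩, ?_, ?_⟩
  · intro u v huv he
    exact h1.vertex u v huv (congrArg Fin.val he)
  · intro u v w huv huw hvw he
    refine h1.edge u v w huv huw hvw ?_
    rw [← ht' _ (by simpa using huv), ← ht' _ (by simpa using huw), he]
  · intro u v huv he
    refine h1.incidence u v huv ?_
    rw [← ht' _ (by simpa using huv), he]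
  · intro v hv
    exact Fin.ext (h4 v hv)
  · intro e he
    refine Fin.ext ?_
    rw [ht' e (H.edgeSet_subset he)]
    exact h5 e he

/-- Q1 for all graphs of large degree, from the theorem for regular graphs -/
theorem q1l_of_q1r (h : Stmt_Q1R.{u}) : Stmt_Q1L.{u} := by
  obtain ⟨D0, hD⟩ := h
  refine ⟨max D0 1, ?_⟩
  intro V _ G _ k h0 hk H hH c₀ t₀ hct
  have h1 : D0 ≤ G.maxDegree := (le_max_left _ _).trans h0
  have h2 : 1 ≤ G.maxDegree := (le_max_right _ _).trans h0
  exact ext_of_reg G k (by omega) hk H hH c₀ t₀ hct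
    (fun G' Y hY _ => hD G' (k - 2) Y (by omega) hY)

end Pool.Agent.Work.MP_db9399_hr.helper1
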