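import Pool.Agent.Work.MP_db9399_hr.Interface

/-!
# MP_db9399: the gadget, a regular bipartite graph of girth 6 (helper1)
-/

set_option autoImplicit false

namespace Pool.Agent.Work.MP_db9399_hr.helper1

open Finset Classical
open Pool.Agent.Work.MP_db9399_all (nb)

/-- A `d`-regular graph without cycles of length 4, and an edge `x0 x1` in no triangle. -/
structure GadP {ρ : Type} [Fintype ρ] (R : SimpleGraph ρ) (d : ℕ) (x0 x1 : ρ) : Prop where
  reg : ∀ r, (nb R r).card = d
  adj : R.Adj x0 x1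
  c4 : ∀ r r' a b, r ≠ r' → R.Adj r a → R.Adj r' a → R.Adj r b → R.Adj r' b → a = b
  no : ∀ r, ¬ (R.Adj r x0 ∧ R.Adj r x1)

section gad
variable (d p : ℕ)

/-- points and lines -/
abbrev Rt : Type := (Fin d × ZMod p) ⊕ (Fin d × ZMod p)

/-- incidence -/
def RAdj : Rt d p → Rt d p → Prop
  | Sum.inl x, Sum.inr y => y.2 = (x.1.1 : ZMod p) * (y.1.1 : ZMod p) + x.2
  | Sum.inr y, Sum.inl x => y.2 = (x.1.1 : ZMod p) * (y.1.1 : ZMod p) + x.2
  | Sum.inl _, Sum.inl _ => False
  | Sum.inr _, Sum.inr _ => False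

/-- the incidence graph -/
def RG : SimpleGraph (Rt d p) where
  Adj := RAdj d p
  symm := ⟨by
    rintro (x | x) (y | y) h
    · exact h
    · exact h
    · exact h
    · exact h⟩
  loopless := ⟨by
    rintro (x | x) h
    · exact h
    · exact h⟩

theorem rg_lr (x y : Fin d × ZMod p) : (RG d p).Adj (Sum.inl x) (Sum.inr y) ↔
    y.2 = (x.1.1 : ZMod p) * (y.1.1 : ZMod p) + x.2 := Iff.rfl

theorem rg_rl (x y : Fin d × ZMod p) : (RG d p).Adj (Sum.inr y) (Sum.inl x) ↔
    y.2 = (x.1.1 : ZMod p) * (y.1.1 : ZMod p) + x.2 := Iff.rfl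

theorem rg_ll (x y : Fin d × ZMod p) : ¬ (RG d p).Adj (Sum.inl x) (Sum.inl y) := fun h => h

theorem rg_rr (x y : Fin d × ZMod p) : ¬ (RG d p).Adj (Sum.inr x) (Sum.inr y) := fun h => h

variable [Fact p.Prime]

theorem cast_inj (hp : d ≤ p) (a b : Fin d) (h : (a.1 : ZMod p) = (b.1 : ZMod p)) : a = b := by
  have h1 := (ZMod.natCast_eq_natCast_iff' _ _ _).1 h
  rw [Nat.mod_eq_of_lt (a.2.trans_le hp), Nat.mod_eq_of_lt (b.2.trans_le hp)] at h1
  exact Fin.ext h1

theorem gadP (hp : d ≤ p) (hd : 0 < d) :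
    GadP (RG d p) d (Sum.inl (⟨0, hd⟩, 0)) (Sum.inr (⟨0, hd⟩, 0)) := by
  have hm : ∀ r r', r' ∈ nb (RG d p) r ↔ (RG d p).Adj r r' := fun r r' => by simp [nb]
  refine ⟨?_, ?_, ?_, ?_⟩
  · rintro (x | y)
    · have : nb (RG d p) (Sum.inl x) = (univ : Finset (Fin d)).image
          (fun s => (Sum.inr (s, (x.1.1 : ZMod p) * (s.1 : ZMod p) + x.2) : Rt d p)) := by
        ext r
        rw [hm, mem_image]
        rcases r with r | r
        · simp [rg_ll]
        · rw [rg_lr]
          constructor
          · intro h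
            refine ⟨r.1, mem_univ _, ?_⟩
            rw [← h]
          · rintro ⟨s, _, hs⟩
            have hs' := Sum.inr_injective hs
            rw [← hs']
      rw [this, card_image_of_injective, card_univ, Fintype.card_fin]
      intro s s' hs
      exact congrArg Prod.fst (Sum.inr_injective hs)
    · have : nb (RG d p) (Sum.inr y) = (univ : Finset (Fin d)).image
          (fun s => (Sum.inl (s, y.2 - (s.1 : ZMod p) * (y.1.1 : ZMod p)) : Rt d p)) := by
        ext r
        rw [hm, mem_image]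
        rcases r with r | r
        · rw [rg_rl]
          constructor
          · intro h
            refine ⟨r.1, mem_univ _, ?_⟩
            rw [h]
            simp
          · rintro ⟨s, _, hs⟩
            have hs' := Sum.inl_injective hs
            rw [← hs']
            simp
        · simp [rg_rr]
      rw [this, card_image_of_injective, card_univ, Fintype.card_fin]
      intro s s' hs
      exact congrArg Prod.fst (Sum.inl_injective hs)
  · rw [rg_lr]
    simp
  · intro r r' a b hr ha1 ha2 hb1 hb2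
    have ha := And.intro ha1 ha2
    have hb := And.intro hb1 hb2
    clear ha1 ha2 hb1 hb2
    by_contra hab
    rcases r with r | r <;> rcases r' with r' | r' <;> rcases a with a | a <;>
      rcases b with b | b <;>
      first
      | exact rg_ll _ _ _ _ ha.1
      | exact rg_ll _ _ _ _ ha.2
      | exact rg_ll _ _ _ _ hb.1
      | exact rg_ll _ _ _ _ hb.2
      | exact rg_rr _ _ _ _ ha.1
      | exact rg_rr _ _ _ _ ha.2
      | exact rg_rr _ _ _ _ hb.1
      | exact rg_rr _ _ _ _ hb.2
      | skip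
    · simp only [rg_lr] at ha hb
      have h1 : ((r.1.1 : ZMod p) - r'.1.1) * ((a.1.1 : ZMod p) - b.1.1) = 0 := by
        linear_combination -ha.1 + ha.2 + hb.1 - hb.2
      rcases mul_eq_zero.1 h1 with h2 | h2
      · have h3 := cast_inj d p hp _ _ (sub_eq_zero.1 h2)
        refine hr (congrArg Sum.inl (Prod.ext h3 ?_))
        have h4 := ha.1.symm.trans ha.2
        rw [h3] at h4
        exact add_left_cancel h4
      · have h3 := cast_inj d p hp _ _ (sub_eq_zero.1 h2)
        refine hab (congrArg Sum.inr (Prod.ext h3 ?_))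
        rw [ha.1, hb.1, h3]
    · simp only [rg_rl] at ha hb
      have h1 : ((a.1.1 : ZMod p) - b.1.1) * ((r.1.1 : ZMod p) - r'.1.1) = 0 := by
        linear_combination -ha.1 + ha.2 + hb.1 - hb.2
      rcases mul_eq_zero.1 h1 with h2 | h2
      · have h3 := cast_inj d p hp _ _ (sub_eq_zero.1 h2)
        refine hab (congrArg Sum.inl (Prod.ext h3 ?_))
        have h4 := ha.1.symm.trans hb.1
        rw [h3] at h4
        exact add_left_cancel h4
      · have h3 := cast_inj d p hp _ _ (sub_eq_zero.1 h2)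
        refine hr (congrArg Sum.inr (Prod.ext h3 ?_))
        rw [ha.1, ha.2, h3]
  · rintro (r | r) ⟨h1, h2⟩
    · exact rg_ll _ _ _ _ h1
    · exact rg_rr _ _ _ _ h2

end gad

/-- gadgets exist -/
theorem ex_gad (d : ℕ) (hd : 1 ≤ d) : ∃ (ρ : Type) (_ : Fintype ρ) (R : SimpleGraph ρ)
    (x0 x1 : ρ), GadP R d x0 x1 := by
  obtain ⟨p, hp, hpp⟩ := Nat.exists_infinite_primes d
  have : Fact p.Prime := ⟨hpp⟩
  exact ⟨Rt d p, inferInstance, RG d p, _, _, gadP d p hp hd⟩

end Pool.Agent.Work.MP_db9399_hr.helper1
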