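import Pool.Agent.Work.MP_db9399_hr_helper1.Join

/-!
# MP_db9399: HRED (helper1)
-/

set_option autoImplicit false

namespace Pool.Agent.Work.MP_db9399_hr.helper1

open Finset Classical
open Pool.Agent.Work.MP_db9399_all (nb)
open Pool.Agent.Work.MP_db9399_xf
open _root_.MP_db9399_co (IsTotalColoring IsDistThreeMatching EveryTotalColoringExtends)

universe u

section red
variable {V : Type u} {G : SimpleGraph V} (H : G.Subgraph)

/-- the partner in the matching -/
noncomputable def pr (v : V) : V := if h : ∃ w, H.Adj v w then h.choose else v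

variable {H}

theorem pr_adj (hH : IsDistThreeMatching H) {v : V} (hv : v ∈ H.verts) : H.Adj v (pr H v) := by
  have h : ∃ w, H.Adj v w := by
    obtain ⟨w, hw, _⟩ := hH.1 hv
    exact ⟨w, hw⟩
  unfold pr
  rw [dif_pos h]
  exact h.choose_spec

theorem pr_eq (hH : IsDistThreeMatching H) {v w : V} (h : H.Adj v w) : w = pr H v := by
  have hv := H.edge_vert h
  obtain ⟨y, _, hy⟩ := hH.1 hv
  rw [hy w h, hy _ (pr_adj hH hv)]

theorem adj_of_two (hH : IsDistThreeMatching H) {v w w' : V} (hw : w ∈ H.verts)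
    (hw' : w' ∈ H.verts) (h : G.Adj v w) (h' : G.Adj v w') (hne : w ≠ w') : H.Adj w w' := by
  by_contra hc
  have h1 := hH.2 w hw w' hw' hne hc
  have h2 : G.edist w w' ≤ 2 := by
    have := SimpleGraph.Walk.edist_le (SimpleGraph.Walk.cons h.symm (SimpleGraph.Walk.cons h'
      SimpleGraph.Walk.nil))
    simpa using this
  have h3 := h1.trans h2
  exact absurd h3 (by decide)

theorem no_adj (hH : IsDistThreeMatching H) {v w : V} (hv : v ∈ H.verts)
    (hw : w ∈ H.verts) (h : G.Adj v w) : H.Adj v w := by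
  by_contra hc
  have h1 := hH.2 v hv w hw h.ne hc
  have h2 : G.edist v w ≤ 1 := by
    have := SimpleGraph.Walk.edist_le (SimpleGraph.Walk.cons h SimpleGraph.Walk.nil)
    simpa using this
  have h3 := h1.trans h2
  exact absurd h3 (by decide)

variable (H)

/-- the graph without the matching -/
def Gm : SimpleGraph V where
  Adj v w := G.Adj v w ∧ ¬ H.Adj v w
  symm := ⟨fun _ _ h => ⟨h.1.symm, fun h' => h.2 h'.symm⟩⟩
  loopless := ⟨fun v h => G.loopless.irrefl v h.1⟩

variable [Fintype V] (d : ℕ) {ρ : Type} [Fintype ρ] (R : SimpleGraph ρ) (x0 x1 : ρ)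
  (c₀ : V → ℕ) (t₀ : Sym2 V → ℕ)

/-- missing degree -/
noncomputable def df (v : V) : ℕ := d - (nb (Gm H) v).card

theorem df_add (hG : ∀ v, (nb G v).card ≤ d) (v : V) : (nb (Gm H) v).card + df H d v = d := by
  have h1 : nb (Gm H) v ⊆ nb G v := fun w hw => mem_nb.2 (mem_nb.1 hw).1
  have h2 := (card_le_card h1).trans (hG v)
  unfold df
  omega

theorem df_pos (hG : ∀ v, (nb G v).card ≤ d) (hH : IsDistThreeMatching H) {v : V}
    (hv : v ∈ H.verts) : 0 < df H d v := by
  have h1 : nb (Gm H) v ⊂ nb G v := by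
    rw [Finset.ssubset_iff_subset_ne]
    refine ⟨fun w hw => mem_nb.2 (mem_nb.1 hw).1, ?_⟩
    intro he
    have h2 : pr H v ∈ nb G v := mem_nb.2 (H.adj_sub (pr_adj hH hv))
    rw [← he] at h2
    exact (mem_nb.1 h2).2 (pr_adj hH hv)
  have h2 := (card_lt_card h1).trans_le (hG v)
  unfold df
  omega

/-- the precoloured vertices -/
def WP : Jt (df H d) ρ → Prop
  | Sum.inl a => a.1 ∈ H.verts
  | Sum.inr b => b.1.1 ∈ H.verts ∧ b.1.2.1 = 0 ∧ ∃ β, b.2 = xx x0 x1 β

/-- the partners -/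
noncomputable def ptJ : Jt (df H d) ρ → Jt (df H d) ρ
  | Sum.inl a => if h : 0 < df H d a.1 then Sum.inr (⟨a.1, ⟨0, h⟩⟩, xx x0 x1 a.2) else Sum.inl a
  | Sum.inr b => Sum.inl (b.1.1, decide (b.2 = x1))

/-- own colours -/
noncomputable def cJ : Jt (df H d) ρ → ℕ
  | Sum.inl a => c₀ a.1
  | Sum.inr b => c₀ (pr H b.1.1)

/-- colours of the edges of the matching -/
noncomputable def tJ : Jt (df H d) ρ → ℕ
  | Sum.inl a => t₀ s(a.1, pr H a.1)
  | Sum.inr b => t₀ s(b.1.1, pr H b.1.1)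

/-- the precoloured matching of the joined graph -/
noncomputable def YJ : HX (Jt (df H d) ρ) where
  W := univ.filter (WP H d x0 x1)
  pt := ptJ H d x0 x1
  c0 := cJ H d c₀
  t0 := tJ H d t₀
  Z := Zs (df H d) ρ

omit [Fintype ρ] in
theorem ptJ_l {v : V} (h : 0 < df H d v) (β : Bool) :
    ptJ H d x0 x1 (Sum.inl (v, β)) = Sum.inr (⟨v, ⟨0, h⟩⟩, xx x0 x1 β) :=
  dif_pos (c := 0 < df H d (v, β).1) h

theorem mem_W (y : Jt (df H d) ρ) : y ∈ (YJ H d x0 x1 c₀ t₀).W ↔ WP H d x0 x1 y := by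
  simp [YJ]

variable {R x0 x1} (hR : GadP R d x0 x1)
include hR

theorem dec_xx (β : Bool) : decide (xx x0 x1 β = x1) = β := by
  have h0 := hR.adj.ne
  cases β
  · simpa [xx] using h0
  · simp [xx]

theorem spr (hH : IsDistThreeMatching H) (y : Jt (df H d) ρ) :
    (insert y (nb (JG (Gm H) (df H d) R x0 x1) y) ∩ (YJ H d x0 x1 c₀ t₀).W).card ≤ 2 := by
  have h0 := hR.adj.ne
  rcases y with ⟨v, β⟩ | ⟨j, r⟩
  · by_cases hv : v ∈ H.verts
    · by_cases hd : 0 < df H d v
      · refine (card_le_card (t := {Sum.inl (v, β),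
          Sum.inr (⟨v, ⟨0, hd⟩⟩, xx x0 x1 β)}) ?_).trans card_le_two
        intro a ha
        rw [mem_inter, mem_insert, mem_nb, mem_W] at ha
        rw [mem_insert, mem_singleton]
        rcases ha.1 with h | h
        · exact Or.inl h
        · rcases a with ⟨w, γ⟩ | ⟨⟨w, i⟩, r⟩
          · have h1 := (jg_ll _ _ _ _ _ _ _).1 h
            have h2 : w ∈ H.verts := ha.2
            exact absurd (no_adj hH hv h2 h1.2.1) h1.2.2
          · right
            have h1 := (jg_lr _ _ _ _ _ _ _).1 h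
            obtain ⟨_, h2, _⟩ : w ∈ H.verts ∧ i.1 = 0 ∧ ∃ β, r = xx x0 x1 β := ha.2
            simp only at h1 h2
            obtain ⟨rfl, rfl⟩ := h1
            have h3 : i = ⟨0, hd⟩ := Fin.ext h2
            rw [h3]
      · refine (card_le_card (t := {Sum.inl (v, β)}) ?_).trans (by simp)
        intro a ha
        rw [mem_inter, mem_insert, mem_nb, mem_W] at ha
        rw [mem_singleton]
        rcases ha.1 with h | h
        · exact h
        · rcases a with ⟨w, γ⟩ | ⟨⟨w, i⟩, r⟩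
          · have h1 := (jg_ll _ _ _ _ _ _ _).1 h
            have h2 : w ∈ H.verts := ha.2
            exact absurd (no_adj hH hv h2 h1.2.1) h1.2.2
          · have h1 := (jg_lr _ _ _ _ _ _ _).1 h
            simp only at h1
            obtain ⟨rfl, rfl⟩ := h1
            exact absurd (Nat.lt_of_le_of_lt (Nat.zero_le _) i.2) hd
    · by_cases he : ∃ w, w ∈ H.verts ∧ G.Adj v w
      · obtain ⟨w, hw, hvw⟩ := he
        refine (card_le_card (t := {Sum.inl (w, β), Sum.inl (pr H w, β)}) ?_).trans card_le_two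
        intro a ha
        rw [mem_inter, mem_insert, mem_nb, mem_W] at ha
        rw [mem_insert, mem_singleton]
        rcases ha.1 with h | h
        · subst h
          exact absurd ha.2 hv
        · rcases a with ⟨w', γ⟩ | ⟨⟨w', i⟩, r⟩
          · have h1 := (jg_ll _ _ _ _ _ _ _).1 h
            have h2 : w' ∈ H.verts := ha.2
            simp only at h1
            obtain ⟨rfl, h3⟩ := h1
            by_cases hww : w = w'
            · left
              rw [hww]
            · right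
              rw [← pr_eq hH (adj_of_two hH hw h2 hvw h3.1 hww)]
          · have h1 := (jg_lr _ _ _ _ _ _ _).1 h
            obtain ⟨h2, _, _⟩ : w' ∈ H.verts ∧ i.1 = 0 ∧ ∃ β, r = xx x0 x1 β := ha.2
            simp only at h1
            exact absurd (h1.1 ▸ h2) hv
      · refine (card_le_card (t := (∅ : Finset (Jt (df H d) ρ))) ?_).trans (by simp)
        intro a ha
        exfalso
        rw [mem_inter, mem_insert, mem_nb, mem_W] at ha
        rcases ha.1 with h | h
        · subst h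
          exact absurd ha.2 hv
        · rcases a with ⟨w', γ⟩ | ⟨⟨w', i⟩, r⟩
          · have h1 := (jg_ll _ _ _ _ _ _ _).1 h
            exact he ⟨w', ha.2, h1.2.1⟩
          · have h1 := (jg_lr _ _ _ _ _ _ _).1 h
            obtain ⟨h2, _, _⟩ : w' ∈ H.verts ∧ i.1 = 0 ∧ ∃ β, r = xx x0 x1 β := ha.2
            simp only at h1
            exact hv (h1.1 ▸ h2)
  · by_cases hr : ∃ β, r = xx x0 x1 β
    · obtain ⟨β, rfl⟩ := hr
      refine (card_le_card (t := {Sum.inr (j, xx x0 x1 β), Sum.inl (j.1, β)}) ?_).trans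
        card_le_two
      intro a ha
      rw [mem_inter, mem_insert, mem_nb, mem_W] at ha
      rw [mem_insert, mem_singleton]
      rcases ha.1 with h | h
      · exact Or.inl h
      · rcases a with ⟨w', γ⟩ | ⟨k, r⟩
        · right
          have h1 := (jg_rl _ _ _ _ _ _ _).1 h
          have h2 := xx_inj hR h1.2
          have h3 := h1.1
          simp only at h2 h3
          rw [h2, h3]
        · exfalso
          have h1 := (jg_rr _ _ _ _ _ _ _).1 h
          obtain ⟨_, _, γ, h2⟩ : k.1 ∈ H.verts ∧ k.2.1 = 0 ∧ ∃ β, r = xx x0 x1 β := ha.2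
          subst h2
          simp only at h1
          have h3 := h1.2.1.ne
          cases β <;> cases γ
          · exact h3 rfl
          · exact h1.2.2 (by simp [xx])
          · exact h1.2.2 (by simp [xx, Sym2.eq_swap])
          · exact h3 rfl
    · refine (card_le_card (t := {Sum.inr (j, x0), Sum.inr (j, x1)}) ?_).trans card_le_two
      intro a ha
      rw [mem_inter, mem_insert, mem_nb, mem_W] at ha
      rw [mem_insert, mem_singleton]
      rcases ha.1 with h | h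
      · subst h
        obtain ⟨_, _, h2⟩ : j.1 ∈ H.verts ∧ j.2.1 = 0 ∧ ∃ β, r = xx x0 x1 β := ha.2
        exact absurd h2 hr
      · rcases a with ⟨w', γ⟩ | ⟨k, r'⟩
        · have h1 := (jg_rl _ _ _ _ _ _ _).1 h
          exact absurd ⟨γ, h1.2⟩ hr
        · have h1 := (jg_rr _ _ _ _ _ _ _).1 h
          obtain ⟨_, _, γ, h2⟩ : k.1 ∈ H.verts ∧ k.2.1 = 0 ∧ ∃ β, r' = xx x0 x1 β := ha.2
          simp only at h1
          rw [h1.1, h2]
          cases γ
          · exact Or.inl (by simp [xx])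
          · exact Or.inr (by simp [xx])

end red

/-- the reduction -/
theorem stmt_HRED : Stmt_HRED.{u} := by
  intro V _ G d H c₀ t₀ hd hG hH hct hc0 ht0
  obtain ⟨ρ, _, R, x0, x1, hR⟩ := ex_gad d hd
  have hte : ∀ v ∈ H.verts, s(v, pr H v) ∈ H.edgeSet := fun v hv => by
    simpa using pr_adj hH hv
  have hZ : (YJ H d x0 x1 c₀ t₀).Z = Zs (df H d) ρ := rfl
  refine ⟨Jt (df H d) ρ, inferInstance, JG (Gm H) (df H d) R x0 x1, YJ H d x0 x1 c₀ t₀, ?_, ?_,
    ?_⟩
  · refine ⟨?_, ?_, ?_, ?_, fun y => by convert spr H d c₀ t₀ hR hH y, ?_, ?_, ?_, ?_, ?_, ?_,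
      ?_, ?_⟩
    · rintro (⟨v, β⟩ | ⟨j, r⟩)
      · rw [card_l]
        exact df_add H d hG v
      · exact card_r _ _ hR j r
    · rintro (⟨v, β⟩ | ⟨⟨v, i⟩, r⟩) hu
      · have hv : v ∈ H.verts := (mem_W H d x0 x1 c₀ t₀ _).1 hu
        rw [mem_W]
        have h1 := df_pos H d hG hH hv
        change WP H d x0 x1 (ptJ H d x0 x1 (Sum.inl (v, β)))
        rw [ptJ_l H d x0 x1 h1]
        exact ⟨hv, rfl, β, rfl⟩
      · obtain ⟨h1, _, _⟩ : v ∈ H.verts ∧ i.1 = 0 ∧ ∃ β, r = xx x0 x1 β :=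
          (mem_W H d x0 x1 c₀ t₀ _).1 hu
        rw [mem_W]
        exact h1
    · rintro (⟨v, β⟩ | ⟨⟨v, i⟩, r⟩) hu
      · have hv : v ∈ H.verts := (mem_W H d x0 x1 c₀ t₀ _).1 hu
        have h1 := df_pos H d hG hH hv
        change ptJ H d x0 x1 (ptJ H d x0 x1 (Sum.inl (v, β))) = _
        rw [ptJ_l H d x0 x1 h1]
        change Sum.inl (v, decide (xx x0 x1 β = x1)) = _
        rw [dec_xx d hR]
      · obtain ⟨h1, h2, β, h3⟩ : v ∈ H.verts ∧ i.1 = 0 ∧ ∃ β, r = xx x0 x1 β :=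
          (mem_W H d x0 x1 c₀ t₀ _).1 hu
        change ptJ H d x0 x1 (Sum.inl (v, decide (r = x1))) = _
        have h4 := df_pos H d hG hH h1
        rw [ptJ_l H d x0 x1 h4]
        subst h3
        have h5 : i = ⟨0, h4⟩ := Fin.ext h2
        rw [dec_xx d hR, h5]
    · rintro (⟨v, β⟩ | ⟨⟨v, i⟩, r⟩) hu
      · have hv : v ∈ H.verts := (mem_W H d x0 x1 c₀ t₀ _).1 hu
        have h1 := df_pos H d hG hH hv
        change (JG (Gm H) (df H d) R x0 x1).Adj _ (ptJ H d x0 x1 (Sum.inl (v, β)))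
        rw [ptJ_l H d x0 x1 h1]
        exact ⟨rfl, rfl⟩
      · obtain ⟨h1, h2, β, h3⟩ : v ∈ H.verts ∧ i.1 = 0 ∧ ∃ β, r = xx x0 x1 β :=
          (mem_W H d x0 x1 c₀ t₀ _).1 hu
        change (JG (Gm H) (df H d) R x0 x1).Adj _ (Sum.inl (v, decide (r = x1)))
        subst h3
        rw [dec_xx d hR]
        exact ⟨rfl, rfl⟩
    · rintro (⟨v, β⟩ | ⟨⟨v, i⟩, r⟩) hu
      · have hv : v ∈ H.verts := (mem_W H d x0 x1 c₀ t₀ _).1 hu
        exact hc0 v hv
      · obtain ⟨h1, _⟩ : v ∈ H.verts ∧ i.1 = 0 ∧ ∃ β, r = xx x0 x1 β :=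
          (mem_W H d x0 x1 c₀ t₀ _).1 hu
        exact hc0 _ (H.edge_vert (pr_adj hH h1).symm)
    · rintro (⟨v, β⟩ | ⟨⟨v, i⟩, r⟩) hu
      · have hv : v ∈ H.verts := (mem_W H d x0 x1 c₀ t₀ _).1 hu
        exact ht0 _ (hte v hv)
      · obtain ⟨h1, _⟩ : v ∈ H.verts ∧ i.1 = 0 ∧ ∃ β, r = xx x0 x1 β :=
          (mem_W H d x0 x1 c₀ t₀ _).1 hu
        exact ht0 _ (hte v h1)
    · rintro (⟨v, β⟩ | ⟨⟨v, i⟩, r⟩) hu
      · have hv : v ∈ H.verts := (mem_W H d x0 x1 c₀ t₀ _).1 hu
        have h1 := df_pos H d hG hH hv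
        change tJ H d t₀ (ptJ H d x0 x1 (Sum.inl (v, β))) = _
        rw [ptJ_l H d x0 x1 h1]
        rfl
      · rfl
    · rintro (⟨v, β⟩ | ⟨⟨v, i⟩, r⟩) hu
      · have hv : v ∈ H.verts := (mem_W H d x0 x1 c₀ t₀ _).1 hu
        have h1 := hct.incidence v (pr H v) (by simpa using pr_adj hH hv)
        exact fun h => h1 h.symm
      · obtain ⟨hv, _⟩ : v ∈ H.verts ∧ i.1 = 0 ∧ ∃ β, r = xx x0 x1 β :=
          (mem_W H d x0 x1 c₀ t₀ _).1 hu
        have h1 := hct.incidence (pr H v) v (by simpa using (pr_adj hH hv).symm)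
        rw [Sym2.eq_swap] at h1
        exact fun h => h1 h.symm
    · rintro (⟨v, β⟩ | ⟨⟨v, i⟩, r⟩) hu
      · have hv : v ∈ H.verts := (mem_W H d x0 x1 c₀ t₀ _).1 hu
        have h1 := df_pos H d hG hH hv
        have h2 := hct.vertex v (pr H v) (by simpa using pr_adj hH hv)
        change cJ H d c₀ (ptJ H d x0 x1 (Sum.inl (v, β))) ≠ _
        rw [ptJ_l H d x0 x1 h1]
        exact h2.symm
      · obtain ⟨hv, _⟩ : v ∈ H.verts ∧ i.1 = 0 ∧ ∃ β, r = xx x0 x1 β :=
          (mem_W H d x0 x1 c₀ t₀ _).1 hu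
        exact hct.vertex v (pr H v) (by simpa using pr_adj hH hv)
    · rintro (⟨v, β⟩ | ⟨⟨v, i⟩, r⟩) hu
      · have hv : v ∈ H.verts := (mem_W H d x0 x1 c₀ t₀ _).1 hu
        have h1 := df_pos H d hG hH hv
        right
        change ptJ H d x0 x1 (Sum.inl (v, β)) ∈ Zs (df H d) ρ
        rw [ptJ_l H d x0 x1 h1]
        exact (mem_Zs _ _).2 ⟨_, rfl⟩
      · left
        exact (mem_Zs _ _).2 ⟨_, rfl⟩
    · intro z hz
      rw [hZ]
      convert zn (Gm H) (df H d) hR z hz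
    · exact fun z hz z' hz' hne => by convert zz _ _ hR z z' hz hz' hne
  · intro b hb
    rw [mem_union, mem_image, mem_image] at hb
    rcases hb with ⟨u, hu, rfl⟩ | ⟨u, hu, rfl⟩
    · left
      rcases u with ⟨v, β⟩ | ⟨⟨v, i⟩, r⟩
      · exact ⟨v, (mem_W H d x0 x1 c₀ t₀ _).1 hu, rfl⟩
      · obtain ⟨hv, _⟩ : v ∈ H.verts ∧ i.1 = 0 ∧ ∃ β, r = xx x0 x1 β :=
          (mem_W H d x0 x1 c₀ t₀ _).1 hu
        exact ⟨pr H v, H.edge_vert (pr_adj hH hv).symm, rfl⟩
    · right
      rcases u with ⟨v, β⟩ | ⟨⟨v, i⟩, r⟩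
      · exact ⟨_, hte v ((mem_W H d x0 x1 c₀ t₀ _).1 hu), rfl⟩
      · obtain ⟨hv, _⟩ : v ∈ H.verts ∧ i.1 = 0 ∧ ∃ β, r = xx x0 x1 β :=
          (mem_W H d x0 x1 c₀ t₀ _).1 hu
        exact ⟨_, hte v hv, rfl⟩
  · intro c t h
    let φ : V → Jt (df H d) ρ := fun v => Sum.inl (v, false)
    have hφ : Function.Injective φ := fun v w hvw => congrArg Prod.fst (Sum.inl_injective hvw)
    have hadj : ∀ v w, G.Adj v w → ¬ H.Adj v w → (JG (Gm H) (df H d) R x0 x1).Adj (φ v) (φ w) :=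
      fun v w h1 h2 => ⟨rfl, h1, h2⟩
    let t₁ : Sym2 V → ℕ := fun e => if e ∈ H.edgeSet then t₀ e else
      Sym2.lift ⟨fun v w => t (φ v) (φ w), fun v w => h.sym _ _⟩ e
    have t1a : ∀ v w, H.Adj v w → t₁ s(v, w) = t₀ s(v, w) := fun v w hvw => if_pos (by simpa using hvw)
    have t1b : ∀ v w, ¬ H.Adj v w → t₁ s(v, w) = t (φ v) (φ w) :=
      fun v w hvw => if_neg (by simpa using hvw)
    have hcv : ∀ v ∈ H.verts, c (φ v) = c₀ v := fun v hv =>
      h.hc (φ v) ((mem_W H d x0 x1 c₀ t₀ _).2 hv)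
    have hpt : ∀ v ∈ H.verts, ∃ b, (JG (Gm H) (df H d) R x0 x1).Adj (φ v) (Sum.inr b) ∧
        t (φ v) (Sum.inr b) = t₀ s(v, pr H v) := by
      intro v hv
      have h1 := df_pos H d hG hH hv
      refine ⟨(⟨v, ⟨0, h1⟩⟩, xx x0 x1 false), ⟨rfl, rfl⟩, ?_⟩
      have h2 := h.ht (φ v) ((mem_W H d x0 x1 c₀ t₀ _).2 hv)
      have h3 : (YJ H d x0 x1 c₀ t₀).pt (φ v) = Sum.inr (⟨v, ⟨0, h1⟩⟩, xx x0 x1 false) := by
        change ptJ H d x0 x1 (Sum.inl (v, false)) = _
        rw [ptJ_l H d x0 x1 h1]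
      rw [h3] at h2
      exact h2
    refine ⟨fun v => c (φ v), t₁, ⟨?_, ?_, ?_⟩, fun v => h.clt _, ?_, hcv, ?_⟩
    · intro v w hvw
      by_cases hH' : H.Adj v w
      · rw [hcv v (H.edge_vert hH'), hcv w (H.edge_vert hH'.symm)]
        exact hct.vertex v w (by simpa using hH')
      · exact h.cc _ _ (hadj v w hvw hH')
    · intro u v w huv huw hvw
      by_cases h1 : H.Adj u v
      · by_cases h2 : H.Adj u w
        · exact absurd ((pr_eq hH h1).trans (pr_eq hH h2).symm) hvw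
        · obtain ⟨b, hb1, hb2⟩ := hpt u (H.edge_vert h1)
          rw [t1a u v h1, t1b u w h2, pr_eq hH h1, ← hb2]
          intro he
          have := h.inj (φ u) (mem_coe.2 (mem_nb.2 hb1))
            (mem_coe.2 (mem_nb.2 (hadj u w huw h2))) he
          exact absurd this (by simp [φ])
      · by_cases h2 : H.Adj u w
        · obtain ⟨b, hb1, hb2⟩ := hpt u (H.edge_vert h2)
          rw [t1a u w h2, t1b u v h1, pr_eq hH h2, ← hb2]
          intro he
          have := h.inj (φ u) (mem_coe.2 (mem_nb.2 (hadj u v huv h1)))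
            (mem_coe.2 (mem_nb.2 hb1)) he
          exact absurd this (by simp [φ])
        · rw [t1b u v h1, t1b u w h2]
          intro he
          exact hvw (hφ (h.inj (φ u) (mem_coe.2 (mem_nb.2 (hadj u v huv h1)))
            (mem_coe.2 (mem_nb.2 (hadj u w huw h2))) he))
    · intro u v huv
      by_cases h1 : H.Adj u v
      · rw [t1a u v h1]
        rw [hcv u (H.edge_vert h1)]
        exact hct.incidence u v (by simpa using h1)
      · rw [t1b u v h1]
        exact h.tc _ _ (hadj u v huv h1)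
    · intro e he
      induction e using Sym2.ind with
      | h v w =>
        have hvw : G.Adj v w := he
        by_cases h1 : H.Adj v w
        · rw [t1a v w h1]
          exact ht0 _ (by simpa using h1)
        · rw [t1b v w h1]
          exact h.tlt _ _ (hadj v w hvw h1)
    · intro e he
      exact if_pos he

end Pool.Agent.Work.MP_db9399_hr.helper1
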