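import Pool.Agent.Work.MP_db9399_hr_helper1.Gad

/-!
# MP_db9399: two copies of a graph joined by gadgets (helper1)
-/

set_option autoImplicit false

namespace Pool.Agent.Work.MP_db9399_hr.helper1

open Finset Classical
open Pool.Agent.Work.MP_db9399_all (nb)

universe u

theorem mem_nb {V : Type u} [Fintype V] {G : SimpleGraph V} {v w : V} : w ∈ nb G v ↔ G.Adj v w := by
  simp [nb]

section join
variable {V : Type u} {ρ : Type}

/-- vertices: two copies of `V` and a gadget for every `(v, i)`, `i < df v` -/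
abbrev Jt (df : V → ℕ) (ρ : Type) : Type u := (V × Bool) ⊕ ((Σ v : V, Fin (df v)) × ρ)

/-- the end of the gadget for the copy `β` -/
def xx (x0 x1 : ρ) (β : Bool) : ρ := if β then x1 else x0

/-- adjacency -/
def JAdj (G0 : SimpleGraph V) (df : V → ℕ) (R : SimpleGraph ρ) (x0 x1 : ρ) :
    Jt df ρ → Jt df ρ → Prop
  | Sum.inl a, Sum.inl b => a.2 = b.2 ∧ G0.Adj a.1 b.1
  | Sum.inl a, Sum.inr b => b.1.1 = a.1 ∧ b.2 = xx x0 x1 a.2
  | Sum.inr b, Sum.inl a => b.1.1 = a.1 ∧ b.2 = xx x0 x1 a.2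
  | Sum.inr a, Sum.inr b => a.1 = b.1 ∧ R.Adj a.2 b.2 ∧ s(a.2, b.2) ≠ s(x0, x1)

/-- the joined graph -/
def JG (G0 : SimpleGraph V) (df : V → ℕ) (R : SimpleGraph ρ) (x0 x1 : ρ) :
    SimpleGraph (Jt df ρ) where
  Adj := JAdj G0 df R x0 x1
  symm := ⟨by
    rintro (x | x) (y | y) h
    · exact ⟨h.1.symm, h.2.symm⟩
    · exact h
    · exact h
    · exact ⟨h.1.symm, h.2.1.symm, by rw [Sym2.eq_swap]; exact h.2.2⟩⟩
  loopless := ⟨by
    rintro (x | x) h
    · exact G0.loopless.irrefl _ h.2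
    · exact R.loopless.irrefl _ h.2.1⟩

variable (G0 : SimpleGraph V) (df : V → ℕ) (R : SimpleGraph ρ) (x0 x1 : ρ)

theorem jg_ll (a b : V × Bool) : (JG G0 df R x0 x1).Adj (Sum.inl a) (Sum.inl b) ↔
    a.2 = b.2 ∧ G0.Adj a.1 b.1 := Iff.rfl

theorem jg_lr (a : V × Bool) (b : (Σ v : V, Fin (df v)) × ρ) :
    (JG G0 df R x0 x1).Adj (Sum.inl a) (Sum.inr b) ↔ b.1.1 = a.1 ∧ b.2 = xx x0 x1 a.2 := Iff.rfl

theorem jg_rl (a : V × Bool) (b : (Σ v : V, Fin (df v)) × ρ) :
    (JG G0 df R x0 x1).Adj (Sum.inr b) (Sum.inl a) ↔ b.1.1 = a.1 ∧ b.2 = xx x0 x1 a.2 := Iff.rfl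

theorem jg_rr (a b : (Σ v : V, Fin (df v)) × ρ) :
    (JG G0 df R x0 x1).Adj (Sum.inr a) (Sum.inr b) ↔
      a.1 = b.1 ∧ R.Adj a.2 b.2 ∧ s(a.2, b.2) ≠ s(x0, x1) := Iff.rfl

variable [Fintype V] [Fintype ρ]

theorem card_l (v : V) (β : Bool) :
    (nb (JG G0 df R x0 x1) (Sum.inl (v, β))).card = (nb G0 v).card + df v := by
  have h : nb (JG G0 df R x0 x1) (Sum.inl (v, β)) =
      (nb G0 v).image (fun w => (Sum.inl (w, β) : Jt df ρ)) ∪
        (univ : Finset (Fin (df v))).image
          (fun i => (Sum.inr (⟨v, i⟩, xx x0 x1 β) : Jt df ρ)) := by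
    ext y
    rw [mem_nb, mem_union, mem_image, mem_image]
    rcases y with ⟨w, γ⟩ | ⟨⟨w, i⟩, r⟩
    · rw [jg_ll]
      constructor
      · rintro ⟨h1, h2⟩
        simp only at h1 h2
        subst h1
        exact Or.inl ⟨w, mem_nb.2 h2, rfl⟩
      · rintro (⟨w', h1, h2⟩ | ⟨i, _, h2⟩)
        · have h3 := Sum.inl_injective h2
          rw [Prod.ext_iff] at h3
          simp only at h3
          obtain ⟨rfl, rfl⟩ := h3
          exact ⟨rfl, mem_nb.1 h1⟩
        · exact absurd h2 (by simp)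
    · rw [jg_lr]
      constructor
      · rintro ⟨h1, h2⟩
        simp only at h1 h2
        subst h1 h2
        exact Or.inr ⟨i, mem_univ _, rfl⟩
      · rintro (⟨w', h1, h2⟩ | ⟨j, _, h2⟩)
        · exact absurd h2 (by simp)
        · have h3 := Sum.inr_injective h2
          rw [← h3]
          exact ⟨rfl, rfl⟩
  rw [h, card_union_of_disjoint, card_image_of_injective, card_image_of_injective, card_univ,
    Fintype.card_fin]
  · intro i j hij
    have h3 := Sum.inr_injective hij
    rw [Prod.ext_iff] at h3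
    have h4 := h3.1
    simpa using h4
  · intro w w' hw
    exact congrArg Prod.fst (Sum.inl_injective hw)
  · rw [disjoint_left]
    intro y h1 h2
    obtain ⟨w, _, rfl⟩ := mem_image.1 h1
    obtain ⟨i, _, hi⟩ := mem_image.1 h2
    exact absurd hi (by simp)

variable {R x0 x1} {d : ℕ} (hR : GadP R d x0 x1)
include hR

theorem xx_inj {β γ : Bool} (h : xx x0 x1 β = xx x0 x1 γ) : β = γ := by
  have h0 := hR.adj.ne
  cases β <;> cases γ <;> simp_all [xx]

theorem card_r (j : Σ v : V, Fin (df v)) (r : ρ) :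
    (nb (JG G0 df R x0 x1) (Sum.inr (j, r))).card = d := by
  have h0 := hR.adj.ne
  have hmem : ∀ r', r' ∈ nb R r ↔ R.Adj r r' := fun r' => by simp [nb]
  by_cases hr : ∃ β, r = xx x0 x1 β
  · obtain ⟨β, rfl⟩ := hr
    have h1 : nb (JG G0 df R x0 x1) (Sum.inr (j, xx x0 x1 β)) =
        insert (Sum.inl (j.1, β) : Jt df ρ)
          (((nb R (xx x0 x1 β)).erase (xx x0 x1 (!β))).image
            (fun r' => (Sum.inr (j, r') : Jt df ρ))) := by
      ext y
      rw [mem_nb, mem_insert, mem_image]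
      rcases y with ⟨w, γ⟩ | ⟨k, r'⟩
      · rw [jg_rl]
        constructor
        · rintro ⟨h1, h2⟩
          have h3 := xx_inj hR h2
          simp only at h1 h3
          subst h1 h3
          exact Or.inl rfl
        · rintro (h1 | ⟨r', _, h1⟩)
          · have h3 := Sum.inl_injective h1
            rw [Prod.ext_iff] at h3
            simp only at h3
            obtain ⟨rfl, rfl⟩ := h3
            exact ⟨rfl, rfl⟩
          · exact absurd h1 (by simp)
      · rw [jg_rr]
        constructor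
        · rintro ⟨h1, h2, h3⟩
          simp only at h1 h2 h3
          subst h1
          refine Or.inr ⟨r', mem_erase.2 ⟨?_, (hmem r').2 h2⟩, rfl⟩
          rintro rfl
          apply h3
          cases β
          · simp [xx]
          · simp [xx, Sym2.eq_swap]
        · rintro (h1 | ⟨r'', h1, h2⟩)
          · exact absurd h1 (by simp)
          · have h3 := Sum.inr_injective h2
            rw [Prod.ext_iff] at h3
            simp only at h3
            obtain ⟨rfl, rfl⟩ := h3
            rw [mem_erase] at h1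
            refine ⟨rfl, (hmem _).1 h1.2, ?_⟩
            intro h4
            rw [Sym2.eq_iff] at h4
            cases β
            · simp only [xx, Bool.false_eq_true, ↓reduceIte, Bool.not_false, ne_eq] at h1 h4
              rcases h4 with h4 | h4
              · exact h1.1 h4.2
              · exact h0 h4.1
            · simp only [xx, Bool.false_eq_true, ↓reduceIte, Bool.not_true, ne_eq] at h1 h4
              rcases h4 with h4 | h4
              · exact h0 h4.1.symm
              · exact h1.1 h4.2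
    have hadj : R.Adj (xx x0 x1 β) (xx x0 x1 (!β)) := by
      cases β
      · simpa [xx] using hR.adj
      · simpa [xx] using hR.adj.symm
    rw [h1, card_insert_of_notMem (by simp), card_image_of_injective, card_erase_of_mem
      ((hmem _).2 hadj), hR.reg]
    · have h5 : 0 < (nb R (xx x0 x1 β)).card := card_pos.2 ⟨_, (hmem _).2 hadj⟩
      rw [hR.reg] at h5
      omega
    · intro a b hab
      exact congrArg Prod.snd (Sum.inr_injective hab)
  · have h1 : nb (JG G0 df R x0 x1) (Sum.inr (j, r)) =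
        (nb R r).image (fun r' => (Sum.inr (j, r') : Jt df ρ)) := by
      ext y
      rw [mem_nb, mem_image]
      rcases y with ⟨w, γ⟩ | ⟨k, r'⟩
      · rw [jg_rl]
        constructor
        · rintro ⟨h1, h2⟩
          exact absurd ⟨γ, h2⟩ hr
        · rintro ⟨r', _, h1⟩
          exact absurd h1 (by simp)
      · rw [jg_rr]
        constructor
        · rintro ⟨h1, h2, h3⟩
          simp only at h1 h2 h3
          subst h1
          exact ⟨r', (hmem r').2 h2, rfl⟩
        · rintro ⟨r'', h1, h2⟩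
          have h3 := Sum.inr_injective h2
          rw [Prod.ext_iff] at h3
          simp only at h3
          obtain ⟨rfl, rfl⟩ := h3
          refine ⟨rfl, (hmem _).1 h1, ?_⟩
          intro h4
          rw [Sym2.eq_iff] at h4
          apply hr
          rcases h4 with h4 | h4
          · exact ⟨false, by simpa [xx] using h4.1⟩
          · exact ⟨true, by simpa [xx] using h4.1⟩
    rw [h1, card_image_of_injective, hR.reg]
    intro a b hab
    exact congrArg Prod.snd (Sum.inr_injective hab)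

/-- the vertices of the gadgets -/
noncomputable def Zs (df : V → ℕ) (ρ : Type) [Fintype ρ] : Finset (Jt df ρ) :=
  univ.filter (fun y => ∃ b, y = Sum.inr b)

omit hR in
theorem mem_Zs (y : Jt df ρ) : y ∈ Zs df ρ ↔ ∃ b, y = Sum.inr b := by
  simp [Zs]

/-- a vertex of a gadget has at most one neighbour outside -/
theorem zn (z : Jt df ρ) (hz : z ∈ Zs df ρ) : (nb (JG G0 df R x0 x1) z \ Zs df ρ).card ≤ 1 := by
  obtain ⟨⟨j, r⟩, rfl⟩ := (mem_Zs df z).1 hz
  rw [card_le_one]
  intro a ha b hb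
  rw [mem_sdiff, mem_nb, mem_Zs] at ha hb
  rcases a with ⟨v, β⟩ | a
  · rcases b with ⟨w, γ⟩ | b
    · have h1 := (jg_rl G0 df R x0 x1 _ _).1 ha.1
      have h2 := (jg_rl G0 df R x0 x1 _ _).1 hb.1
      have h3 := xx_inj hR (h1.2.symm.trans h2.2)
      have h4 := h1.1.symm.trans h2.1
      simp only at h3 h4
      rw [h3, h4]
    · exact absurd ⟨b, rfl⟩ hb.2
  · exact absurd ⟨a, rfl⟩ ha.2

/-- two vertices of gadgets have at most one common neighbour -/
theorem zz (z z' : Jt df ρ) (hz : z ∈ Zs df ρ) (hz' : z' ∈ Zs df ρ) (hne : z ≠ z') :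
    (nb (JG G0 df R x0 x1) z ∩ nb (JG G0 df R x0 x1) z').card ≤ 1 := by
  obtain ⟨⟨j, r⟩, rfl⟩ := (mem_Zs df z).1 hz
  obtain ⟨⟨j', r'⟩, rfl⟩ := (mem_Zs df z').1 hz'
  have h0 := hR.adj
  have hno : ¬ ∃ s, R.Adj s x0 ∧ R.Adj s x1 := fun ⟨s, hs⟩ => hR.no s hs
  rw [card_le_one]
  intro a ha b hb
  rw [mem_inter, mem_nb, mem_nb] at ha hb
  rcases a with ⟨v, β⟩ | ⟨k, s⟩
  · have a1 := (jg_rl G0 df R x0 x1 _ _).1 ha.1
    have a2 := (jg_rl G0 df R x0 x1 _ _).1 ha.2
    simp only at a1 a2
    have hrr : r = r' := a1.2.trans a2.2.symm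
    rcases b with ⟨w, γ⟩ | ⟨l, s'⟩
    · have b1 := (jg_rl G0 df R x0 x1 _ _).1 hb.1
      simp only at b1
      have h3 := xx_inj hR (a1.2.symm.trans b1.2)
      rw [h3, ← a1.1, ← b1.1]
    · have b1 := (jg_rr G0 df R x0 x1 _ _).1 hb.1
      have b2 := (jg_rr G0 df R x0 x1 _ _).1 hb.2
      simp only at b1 b2
      exact absurd (by rw [b1.1, b2.1, hrr]) hne
  · have a1 := (jg_rr G0 df R x0 x1 _ _).1 ha.1
    have a2 := (jg_rr G0 df R x0 x1 _ _).1 ha.2
    simp only at a1 a2
    have hjj : j = j' := a1.1.trans a2.1.symm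
    have hrr : r ≠ r' := by
      intro h
      exact hne (by rw [hjj, h])
    rcases b with ⟨w, γ⟩ | ⟨l, s'⟩
    · have b1 := (jg_rl G0 df R x0 x1 _ _).1 hb.1
      have b2 := (jg_rl G0 df R x0 x1 _ _).1 hb.2
      simp only at b1 b2
      exact absurd (b1.2.trans b2.2.symm) hrr
    · have b1 := (jg_rr G0 df R x0 x1 _ _).1 hb.1
      have b2 := (jg_rr G0 df R x0 x1 _ _).1 hb.2
      simp only at b1 b2
      have h3 := hR.c4 r r' s s' hrr a1.2.1 a2.2.1 b1.2.1 b2.2.1
      rw [h3, ← a1.1, ← b1.1]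

end join

end Pool.Agent.Work.MP_db9399_hr.helper1
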